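import Pool.Agent.Q295.PN.StmK

/-!
# Job AL of project PN
-/

set_option autoImplicit false

namespace Pool.Agent.Q25.PN

open Finset Pool.Agent.Q295.PN

theorem sum_shift (N s i : ℕ) (hi : i ≤ s) (f : ℕ → ℝ) (hf : ∀ x, N ≤ x → f x = 0) :
    ∑ x ∈ range (N + s), (if i ≤ x then f (x - i) else 0) = ∑ x ∈ range N, f x := by
  obtain ⟨r, rfl⟩ := Nat.exists_eq_add_of_le hi
  have e : N + (i + r) = i + (N + r) := by omega
  rw [e, Finset.sum_range_add]
  have h1 : ∑ x ∈ range i, (if i ≤ x then f (x - i) else 0) = 0 := by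
    refine Finset.sum_eq_zero fun x hx => ?_
    rw [mem_range] at hx
    rw [if_neg (by omega)]
  have h2 : ∑ x ∈ range (N + r), (if i ≤ i + x then f (i + x - i) else 0) =
      ∑ x ∈ range (N + r), f x := by
    refine Finset.sum_congr rfl fun x _ => ?_
    rw [if_pos (by omega), Nat.add_sub_cancel_left]
  rw [h1, h2, zero_add, Finset.sum_range_add]
  have h3 : ∑ x ∈ range r, f (N + x) = 0 :=
    Finset.sum_eq_zero fun x _ => hf _ (by omega)
  rw [h3, add_zero]

theorem sum_shift2 (N s i j : ℕ) (hi : i ≤ s) (hj : j ≤ s) (f : ℕ → ℕ → ℝ)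
    (hf : ∀ x y, N ≤ x ∨ N ≤ y → f x y = 0) :
    ∑ x ∈ range (N + s), ∑ y ∈ range (N + s), (if i ≤ x ∧ j ≤ y then f (x - i) (y - j) else 0) =
      ∑ x ∈ range N, ∑ y ∈ range N, f x y := by
  have h1 : ∀ x ∈ range (N + s), ∑ y ∈ range (N + s),
      (if i ≤ x ∧ j ≤ y then f (x - i) (y - j) else 0) =
      (if i ≤ x then (fun z => ∑ y ∈ range N, f z y) (x - i) else 0) := by
    intro x _
    by_cases h : i ≤ x
    · rw [if_pos h]
      have h2 := sum_shift N s j hj (f (x - i)) (fun y hy => hf _ _ (Or.inr hy))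
      show _ = ∑ y ∈ range N, f (x - i) y
      rw [← h2]
      refine Finset.sum_congr rfl fun y _ => ?_
      by_cases h3 : j ≤ y
      · rw [if_pos ⟨h, h3⟩, if_pos h3]
      · rw [if_neg (fun h4 => h3 h4.2), if_neg h3]
    · rw [if_neg h]
      refine Finset.sum_eq_zero fun y _ => ?_
      rw [if_neg (fun h4 => h h4.1)]
  rw [Finset.sum_congr rfl h1]
  exact sum_shift N s i hi (fun z => ∑ y ∈ range N, f z y)
    (fun x hx => Finset.sum_eq_zero fun y _ => hf _ _ (Or.inl hx))

theorem al : S_AL := by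
  intro N s b D EN Es hs hb hz hD hEN hEs hS
  have hs0 : (0 : ℝ) < s := by exact_mod_cast hs
  set B : ℝ := ∑ x ∈ range N, ∑ y ∈ range N, (b x y) ^ 2 with hB
  -- the squares of `b` over the larger square
  have hB1 : ∑ x ∈ range (N + s), ∑ y ∈ range (N + s), (b x y) ^ 2 = B := by
    have h := sum_shift2 N s 0 0 (Nat.zero_le _) (Nat.zero_le _) (fun x y => (b x y) ^ 2)
      (fun x y h => by simp [hz x y h])
    simpa using h
  have hb1 : ∑ x ∈ range (N + s), ∑ y ∈ range (N + s), b x y =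
      ∑ x ∈ range N, ∑ y ∈ range N, b x y := by
    have h := sum_shift2 N s 0 0 (Nat.zero_le _) (Nat.zero_le _) b hz
    simpa using h
  have key : ∀ i ∈ range s, ∀ j ∈ range s, 2 * B ≤ D + 2 * ∑ x ∈ range (N + s),
      ∑ y ∈ range (N + s), b x y * (if i ≤ x ∧ j ≤ y then b (x - i) (y - j) else 0) := by
    intro i hi j hj
    rw [mem_range] at hi hj
    have h1 := hD i hi j hj
    have h2 := sum_shift2 N s i j hi.le hj.le (fun x y => (b x y) ^ 2)
      (fun x y h => by simp [hz x y h])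
    have h3 : ∑ x ∈ range (N + s), ∑ y ∈ range (N + s),
        (b x y - (if i ≤ x ∧ j ≤ y then b (x - i) (y - j) else 0)) ^ 2 =
        ∑ x ∈ range (N + s), ∑ y ∈ range (N + s), (b x y) ^ 2 +
        ∑ x ∈ range (N + s), ∑ y ∈ range (N + s),
          (if i ≤ x ∧ j ≤ y then (b (x - i) (y - j)) ^ 2 else 0) -
        2 * ∑ x ∈ range (N + s), ∑ y ∈ range (N + s),
          b x y * (if i ≤ x ∧ j ≤ y then b (x - i) (y - j) else 0) := by
      rw [Finset.mul_sum, ← Finset.sum_add_distrib, ← Finset.sum_sub_distrib]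
      refine Finset.sum_congr rfl fun x _ => ?_
      rw [Finset.mul_sum, ← Finset.sum_add_distrib, ← Finset.sum_sub_distrib]
      refine Finset.sum_congr rfl fun y _ => ?_
      split_ifs <;> ring
    rw [h3, hB1, h2] at h1
    linarith
  have key2 : ∑ i ∈ range s, ∑ j ∈ range s, 2 * B ≤ ∑ i ∈ range s, ∑ j ∈ range s,
      (D + 2 * ∑ x ∈ range (N + s), ∑ y ∈ range (N + s),
        b x y * (if i ≤ x ∧ j ≤ y then b (x - i) (y - j) else 0)) :=
    Finset.sum_le_sum fun i hi => Finset.sum_le_sum fun j hj => key i hi j hj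
  have e1 : ∑ i ∈ range s, ∑ j ∈ range s, 2 * B = s ^ 2 * (2 * B) := by
    rw [Finset.sum_const, Finset.sum_const, card_range]
    simp only [nsmul_eq_mul]
    ring
  have e2 : ∑ i ∈ range s, ∑ j ∈ range s,
      (D + 2 * ∑ x ∈ range (N + s), ∑ y ∈ range (N + s),
        b x y * (if i ≤ x ∧ j ≤ y then b (x - i) (y - j) else 0)) =
      s ^ 2 * D + 2 * ∑ x ∈ range (N + s), ∑ y ∈ range (N + s), b x y *
        ∑ i ∈ range s, ∑ j ∈ range s, (if i ≤ x ∧ j ≤ y then b (x - i) (y - j) else 0) := by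
    have h1 : ∑ i ∈ range s, ∑ j ∈ range s, D = s ^ 2 * D := by
      rw [Finset.sum_const, Finset.sum_const, card_range]
      simp only [nsmul_eq_mul]
      ring
    simp only [Finset.sum_add_distrib]
    rw [h1]
    congr 1
    simp only [Finset.mul_sum]
    have sw : ∀ g : ℕ → ℕ → ℕ → ℕ → ℝ, ∑ i ∈ range s, ∑ j ∈ range s, ∑ x ∈ range (N + s),
        ∑ y ∈ range (N + s), g i j x y = ∑ x ∈ range (N + s), ∑ y ∈ range (N + s),
        ∑ i ∈ range s, ∑ j ∈ range s, g i j x y := by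
      intro g
      calc ∑ i ∈ range s, ∑ j ∈ range s, ∑ x ∈ range (N + s), ∑ y ∈ range (N + s), g i j x y
          = ∑ i ∈ range s, ∑ x ∈ range (N + s), ∑ j ∈ range s, ∑ y ∈ range (N + s),
            g i j x y := Finset.sum_congr rfl fun i _ => Finset.sum_comm
        _ = ∑ x ∈ range (N + s), ∑ i ∈ range s, ∑ j ∈ range s, ∑ y ∈ range (N + s),
            g i j x y := Finset.sum_comm
        _ = ∑ x ∈ range (N + s), ∑ i ∈ range s, ∑ y ∈ range (N + s), ∑ j ∈ range s,
            g i j x y := Finset.sum_congr rfl fun x _ => Finset.sum_congr rfl fun i _ =>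
              Finset.sum_comm
        _ = ∑ x ∈ range (N + s), ∑ y ∈ range (N + s), ∑ i ∈ range s, ∑ j ∈ range s,
            g i j x y := Finset.sum_congr rfl fun x _ => Finset.sum_comm
    rw [sw]
  rw [e1, e2] at key2
  have h4 : ∑ x ∈ range (N + s), ∑ y ∈ range (N + s), b x y *
        ∑ i ∈ range s, ∑ j ∈ range s, (if i ≤ x ∧ j ≤ y then b (x - i) (y - j) else 0) ≤
      ∑ x ∈ range (N + s), ∑ y ∈ range (N + s), b x y * Es :=
    Finset.sum_le_sum fun x _ => Finset.sum_le_sum fun y _ =>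
      mul_le_mul_of_nonneg_left (hS x y) (hb x y)
  have h5 : ∑ x ∈ range (N + s), ∑ y ∈ range (N + s), b x y * Es ≤ EN * Es := by
    have : ∑ x ∈ range (N + s), ∑ y ∈ range (N + s), b x y * Es =
        (∑ x ∈ range (N + s), ∑ y ∈ range (N + s), b x y) * Es := by
      rw [Finset.sum_mul]
      refine Finset.sum_congr rfl fun x _ => ?_
      rw [Finset.sum_mul]
    rw [this, hb1]
    exact mul_le_mul_of_nonneg_right hEN hEs
  have h6 : (s : ℝ) ^ 2 * (2 * B) ≤ s ^ 2 * (D + 2 * EN * Es / s ^ 2) := by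
    have : (s : ℝ) ^ 2 * (D + 2 * EN * Es / s ^ 2) = s ^ 2 * D + 2 * (EN * Es) := by
      field_simp
    rw [this]
    linarith
  exact le_of_mul_le_mul_left h6 (by positivity)

end Pool.Agent.Q25.PN
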