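import Pool.Agent.Q295.PN.StmK

/-!
# Job EA of project PN
-/

set_option autoImplicit false

namespace Pool.Agent.Q25.PN

open Finset Pool.Agent.Q295.PN

section

variable {ι : Type} [Fintype ι] [DecidableEq ι]

/-- The weight without the factor at `w`. -/
noncomputable def rw' (p : ℝ) (w : ι) (κ : ι → Bool) : ℝ :=
  ∏ i ∈ univ.erase w, (if κ i = true then p else 1 - p)

theorem wt_split (p : ℝ) (w : ι) (κ : ι → Bool) :
    wt p κ = (if κ w = true then p else 1 - p) * rw' p w κ := by
  unfold wt rw'
  rw [Finset.mul_prod_erase univ (fun i => if κ i = true then p else 1 - p) (mem_univ w)]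

theorem rw_upd (p : ℝ) (w : ι) (κ : ι → Bool) (b : Bool) :
    rw' p w (Function.update κ w b) = rw' p w κ := by
  unfold rw'
  refine Finset.prod_congr rfl fun i hi => ?_
  rw [Function.update_of_ne (Finset.ne_of_mem_erase hi)]

/-- Flip of the coordinate `w`. -/
def flip (w : ι) : (ι → Bool) ≃ (ι → Bool) where
  toFun κ := Function.update κ w (!κ w)
  invFun κ := Function.update κ w (!κ w)
  left_inv κ := by
    funext i
    by_cases h : i = w
    · subst h; simp
    · simp [Function.update_of_ne h]
  right_inv κ := by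
    funext i
    by_cases h : i = w
    · subst h; simp
    · simp [Function.update_of_ne h]

theorem sum_split (w : ι) (f : (ι → Bool) → ℝ) :
    ∑ κ, f κ = ∑ κ : ι → Bool, (if κ w = true then
      f κ + f (Function.update κ w false) else 0) := by
  have h1 : ∑ κ, f κ = ∑ κ : ι → Bool, (if κ w = true then f κ else 0) +
      ∑ κ : ι → Bool, (if κ w = true then 0 else f κ) := by
    rw [← Finset.sum_add_distrib]
    refine Finset.sum_congr rfl fun κ _ => ?_
    split_ifs <;> ring
  have h2 : ∑ κ : ι → Bool, (if κ w = true then 0 else f κ) =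
      ∑ κ : ι → Bool, (if κ w = true then f (Function.update κ w false) else 0) := by
    rw [← Equiv.sum_comp (flip w)]
    refine Finset.sum_congr rfl fun κ _ => ?_
    show (if (Function.update κ w (!κ w)) w = true then 0 else
      f (Function.update κ w (!κ w))) = _
    rw [Function.update_self]
    cases h : κ w <;> simp
  rw [h1, h2, ← Finset.sum_add_distrib]
  refine Finset.sum_congr rfl fun κ _ => ?_
  split_ifs <;> ring

/-- If `F` does not depend on the coordinate `w`. -/
theorem Ex_ind (p : ℝ) (w : ι) (F : (ι → Bool) → ℝ)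
    (hF : ∀ κ b, F (Function.update κ w b) = F κ) :
    Ex p (fun κ => if κ w = true then F κ else 0) = p * Ex p F := by
  unfold Ex
  rw [sum_split w (fun κ => wt p κ * F κ),
    sum_split w (fun κ => wt p κ * (if κ w = true then F κ else 0)), Finset.mul_sum]
  refine Finset.sum_congr rfl fun κ _ => ?_
  have hu : ¬ (Function.update κ w false w = true) := by
    rw [Function.update_self]
    exact Bool.false_ne_true
  by_cases h : κ w = true
  · rw [if_pos h, if_pos h, if_pos h, if_neg hu, hF, wt_split p w κ,
      wt_split p w (Function.update κ w false), rw_upd, if_pos h, if_neg hu]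
    ring
  · rw [if_neg h, if_neg h, mul_zero]

theorem Ex_mono (p : ℝ) (hp : 0 ≤ p) (hp1 : p ≤ 1) (f g : (ι → Bool) → ℝ)
    (h : ∀ κ, f κ ≤ g κ) : Ex p f ≤ Ex p g := by
  unfold Ex
  refine Finset.sum_le_sum fun κ _ => mul_le_mul_of_nonneg_left (h κ) ?_
  unfold wt
  refine Finset.prod_nonneg fun i _ => ?_
  split_ifs <;> linarith

theorem Ex_sum (p : ℝ) {α : Type} (A : Finset α) (f : α → (ι → Bool) → ℝ) :
    ∑ a ∈ A, Ex p (f a) = Ex p (fun κ => ∑ a ∈ A, f a κ) := by
  unfold Ex
  rw [Finset.sum_comm]
  refine Finset.sum_congr rfl fun κ _ => ?_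
  rw [Finset.mul_sum]

end

theorem ea : S_EA := by
  classical
  intro hMC hDE ι _ _ _ p A hp hp1
  have hdd := hDE hMC ι
  obtain ⟨m1, m2, m3, m4, -, -⟩ := hMC ι
  have e1 : ∀ w ∈ A, p * rr p 0 w =
      Ex p (fun κ => if κ w = true then (if De w κ = 0 then (1 : ℝ) else 0) else 0) := by
    intro w _
    rw [Ex_ind p w (fun κ => if De w κ = 0 then (1 : ℝ) else 0)
      (fun κ b => by rw [((hdd w κ).2.1 b).1])]
    unfold rr Pr
    congr 1
    unfold Ex
    refine Finset.sum_congr rfl fun κ _ => ?_
    by_cases h : De w κ = 0 <;> simp [h]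
  rw [Finset.sum_congr rfl e1, Ex_sum]
  apply Ex_mono p hp.le hp1.le
  intro κ
  obtain ⟨C, hC, hch, hcard⟩ := m3 (op κ)
  have h2 : ∑ w ∈ A, (if κ w = true then (if De w κ = 0 then (1 : ℝ) else 0) else 0) =
      ((A.filter (fun w => κ w = true ∧ De w κ = 0)).card : ℝ) := by
    rw [Finset.card_filter]
    push_cast
    refine Finset.sum_congr rfl fun w _ => ?_
    by_cases h : κ w = true <;> by_cases h' : De w κ = 0 <;> simp [h, h']
  rw [h2]
  have hsub : A.filter (fun w => κ w = true ∧ De w κ = 0) ⊆ C ∩ A := by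
    intro w hw
    rw [mem_filter] at hw
    obtain ⟨hwA, hκ, hDe⟩ := hw
    rw [mem_inter]
    refine ⟨?_, hwA⟩
    by_contra hwC
    have h3 := (hdd w κ).2.2.1
    rw [if_pos hDe] at h3
    unfold DD at h3
    have h4 : Function.update κ w true = κ := by
      rw [← hκ]
      exact Function.update_eq_self w κ
    rw [h4] at h3
    have h5 : C ⊆ op (Function.update κ w false) := by
      intro v hv
      have hv' := hC hv
      unfold op at hv' ⊢
      rw [mem_filter] at hv' ⊢
      refine ⟨mem_univ _, ?_⟩
      have hne : v ≠ w := fun h => hwC (h ▸ hv)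
      rw [Function.update_of_ne hne]
      exact hv'.2
    have h6 := m4 _ C h5 hch
    rw [hcard] at h6
    have h7 : (Lc κ : ℝ) ≤ Lc (Function.update κ w false) := by
      have : Lc κ ≤ Lc (Function.update κ w false) := h6
      exact_mod_cast this
    linarith
  have h8 := Finset.card_le_card hsub
  have h9 : (C ∩ A).card ≤ mc (op κ ∩ A) :=
    m4 _ _ (Finset.inter_subset_inter hC (Finset.Subset.refl _))
      (hch.mono (by
        intro v hv
        exact (Finset.mem_inter.1 (Finset.mem_coe.1 hv)).1))
  exact_mod_cast h8.trans h9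

end Pool.Agent.Q25.PN
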