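import Pool.Agent.Q295.PN.StmK

/-!
# Job K11 of project PN
-/

set_option autoImplicit false

namespace Pool.Agent.Q25.PN

open Finset MeasureTheory ProbabilityTheory
open Pool.Agent.Q295.PN Pool.Agent.W533.LP Pool.Agent.W370.LP Pool.Agent.W990.LP.Mom

/-- Comparison of the deterministic last passage times. -/
theorem T_ind_le (w : ℕ → ℕ → ℕ) (m n : ℕ) :
    T (fun i j => if 1 ≤ w i j then 1 else 0) m n ≤ T w m n := by
  have h := Pool.Agent.Q295.PN.lMono zero zero zero zero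
    (fun i j => if 1 ≤ w i j then 1 else 0) w (fun _ => le_rfl) (fun _ => le_rfl)
    (fun i j => by
      show (if 1 ≤ w i j then 1 else 0) ≤ w i j
      split_ifs with h
      · exact h
      · exact Nat.zero_le _) m n
  exact h

theorem T_le_ind (w : ℕ → ℕ → ℕ) (m n : ℕ) :
    T w m n ≤ T (fun i j => if 1 ≤ w i j then 1 else 0) m n +
      ∑ v ∈ range m ×ˢ range n, (w v.1 v.2 - 1) := by
  obtain ⟨S, h1, h2, h3⟩ := chain_att w m n
  have h4 := chain_le (fun i j => if 1 ≤ w i j then 1 else 0) m n S h1 h2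
  have h5 : ∑ v ∈ S, (w v.1 v.2 - 1) ≤ ∑ v ∈ range m ×ˢ range n, (w v.1 v.2 - 1) := by
    refine Finset.sum_le_sum_of_subset fun v hv => ?_
    rw [Finset.mem_product, mem_range, mem_range]
    exact h1 v hv
  have h4' : ∑ v ∈ S, (if 1 ≤ w v.1 v.2 then 1 else 0) ≤
      T (fun i j => if 1 ≤ w i j then 1 else 0) m n := h4
  have h6 : ∑ v ∈ S, w v.1 v.2 = ∑ v ∈ S, (if 1 ≤ w v.1 v.2 then 1 else 0) +
      ∑ v ∈ S, (w v.1 v.2 - 1) := by
    rw [← Finset.sum_add_distrib]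
    refine Finset.sum_congr rfl fun v _ => ?_
    show w v.1 v.2 = (if 1 ≤ w v.1 v.2 then 1 else 0) + (w v.1 v.2 - 1)
    split_ifs with h <;> omega
  rw [← h3, h6]
  omega

theorem T_le_sum (w : ℕ → ℕ → ℕ) (m n : ℕ) :
    T w m n ≤ ∑ v ∈ range m ×ˢ range n, w v.1 v.2 := by
  obtain ⟨S, h1, h2, h3⟩ := chain_att w m n
  rw [← h3]
  refine Finset.sum_le_sum_of_subset fun v hv => ?_
  rw [Finset.mem_product, mem_range, mem_range]
  exact h1 v hv

/-- Moments of `(X - 1)⁺`. -/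
theorem geo_sub {Ω : Type} [MeasurableSpace Ω] {μ : Measure Ω} [IsProbabilityMeasure μ] {q : ℝ}
    (hq0 : 0 ≤ q) (hq1 : q < 1) {X : Ω → ℕ} (hX : Measurable X)
    (law : ∀ k, μ.real {ω | X ω = k} = (1 - q) * q ^ k) :
    Integrable (fun ω => ((X ω - 1 : ℕ) : ℝ) ^ 2) μ ∧
    ∫ ω, ((X ω - 1 : ℕ) : ℝ) ∂μ = q * mean q ∧
    ∫ ω, ((X ω - 1 : ℕ) : ℝ) ^ 2 ∂μ = q * (vari q + mean q ^ 2) := by
  have hs1 : Summable (fun k : ℕ => |((k : ℕ) : ℝ)| * q ^ k) := by
    have := summ_pow hq0 hq1 1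
    simpa using this
  have hs2 : Summable (fun k : ℕ => |((k : ℕ) : ℝ) ^ 2| * q ^ k) := by
    have := summ_pow hq0 hq1 2
    simpa using this
  have k1 := (geo_int hq0 hq1 hX law (fun k => (k : ℝ)) hs1).2
  have k2 := (geo_int hq0 hq1 hX law (fun k => (k : ℝ) ^ 2) hs2).2
  have i1 := (geo_first hq0 hq1 hX law).2
  have i2 := (geo_second hq0 hq1 hX law).2
  have hs1' : Summable (fun k : ℕ => |(((k - 1 : ℕ) : ℕ) : ℝ)| * q ^ k) := by
    refine Summable.of_nonneg_of_le (fun k => by positivity) (fun k => ?_) hs1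
    refine mul_le_mul_of_nonneg_right ?_ (by positivity)
    rw [abs_of_nonneg (by positivity), abs_of_nonneg (by positivity)]
    exact_mod_cast Nat.sub_le k 1
  have hs2' : Summable (fun k : ℕ => |(((k - 1 : ℕ) : ℕ) : ℝ) ^ 2| * q ^ k) := by
    refine Summable.of_nonneg_of_le (fun k => by positivity) (fun k => ?_) hs2
    refine mul_le_mul_of_nonneg_right ?_ (by positivity)
    rw [abs_of_nonneg (by positivity), abs_of_nonneg (by positivity)]
    refine pow_le_pow_left₀ (by positivity) ?_ 2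
    exact_mod_cast Nat.sub_le k 1
  obtain ⟨j1, l1⟩ := geo_int hq0 hq1 hX law (fun k => ((k - 1 : ℕ) : ℝ)) hs1'
  obtain ⟨j2, l2⟩ := geo_int hq0 hq1 hX law (fun k => ((k - 1 : ℕ) : ℝ) ^ 2) hs2'
  rw [i1] at k1
  rw [i2] at k2
  refine ⟨j2, ?_, ?_⟩
  · have h : HasSum (fun k : ℕ => (1 - q) * q ^ k * ((k - 1 : ℕ) : ℝ)) (q * mean q) := by
      rw [← hasSum_nat_add_iff' 1]
      have e : (fun k : ℕ => (1 - q) * q ^ (k + 1) * ((k + 1 - 1 : ℕ) : ℝ)) =
          fun k : ℕ => q * ((1 - q) * q ^ k * (k : ℝ)) := by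
        funext k
        rw [Nat.add_sub_cancel]
        ring
      rw [e]
      have e2 : q * mean q - ∑ i ∈ range 1, (1 - q) * q ^ i * ((i - 1 : ℕ) : ℝ) = q * mean q := by
        simp
      rw [e2]
      exact k1.mul_left q
    exact l1.unique h
  · have h : HasSum (fun k : ℕ => (1 - q) * q ^ k * ((k - 1 : ℕ) : ℝ) ^ 2)
        (q * (vari q + mean q ^ 2)) := by
      rw [← hasSum_nat_add_iff' 1]
      have e : (fun k : ℕ => (1 - q) * q ^ (k + 1) * ((k + 1 - 1 : ℕ) : ℝ) ^ 2) =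
          fun k : ℕ => q * ((1 - q) * q ^ k * (k : ℝ) ^ 2) := by
        funext k
        rw [Nat.add_sub_cancel]
        ring
      rw [e]
      have e2 : q * (vari q + mean q ^ 2) -
          ∑ i ∈ range 1, (1 - q) * q ^ i * ((i - 1 : ℕ) : ℝ) ^ 2 = q * (vari q + mean q ^ 2) := by
        simp
      rw [e2]
      exact k2.mul_left q
    exact l2.unique h

theorem k11 : S_K11 := by
  refine ⟨4, by norm_num, ?_⟩
  intro Ω _ μ q W m n hq hq16 hW
  have hprob := hW.prob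
  have hq1 : q < 1 := by linarith
  have hmeas : ∀ i j, Measurable (W i j) := fun i j => hW.meas (i, j)
  have hlaw : ∀ v : ℕ × ℕ, ∀ k, μ.real {ω | W v.1 v.2 ω = k} = (1 - q) * q ^ k := fun v k =>
    hW.law v k
  have castm : Measurable (fun k : ℕ => (k : ℝ)) := measurable_from_top
  have hTm : Measurable (Tr W m n) :=
    Pool.Agent.Q295.PN.lMeas.2.1 zr zr W (fun _ => measurable_const) (fun _ => measurable_const)
      hmeas m n
  have hindm : ∀ i j, Measurable (ind W i j) := fun i j => by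
    have : ind W i j = (fun k : ℕ => if 1 ≤ k then 1 else 0) ∘ W i j := rfl
    rw [this]
    exact (measurable_from_top (f := fun k : ℕ => if 1 ≤ k then 1 else 0)).comp (hmeas i j)
  have hTim : Measurable (Tr (ind W) m n) :=
    Pool.Agent.Q295.PN.lMeas.2.1 zr zr (ind W) (fun _ => measurable_const)
      (fun _ => measurable_const) hindm m n
  have hWL : ∀ v : ℕ × ℕ, MemLp (fun ω => (W v.1 v.2 ω : ℝ)) 2 μ := by
    intro v
    refine (memLp_two_iff_integrable_sq ?_).2 (geo_second hq.le hq1 (hmeas v.1 v.2) (hlaw v)).1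
    exact (castm.comp (hmeas v.1 v.2)).aestronglyMeasurable
  have hSL : MemLp (fun ω => ∑ v ∈ range m ×ˢ range n, (W v.1 v.2 ω : ℝ)) 2 μ :=
    memLp_finsetSum _ fun v _ => hWL v
  have hT1 : ∀ ω, (Tr W m n ω : ℝ) ≤ ∑ v ∈ range m ×ˢ range n, (W v.1 v.2 ω : ℝ) := by
    intro ω
    have := T_le_sum (fun i j => W i j ω) m n
    have h2 : Tr W m n ω ≤ ∑ v ∈ range m ×ˢ range n, W v.1 v.2 ω := this
    exact_mod_cast h2
  have hT2 : ∀ ω, (Tr (ind W) m n ω : ℝ) ≤ (Tr W m n ω : ℝ) := by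
    intro ω
    have : Tr (ind W) m n ω ≤ Tr W m n ω := T_ind_le (fun i j => W i j ω) m n
    exact_mod_cast this
  have hTL : MemLp (fun ω => (Tr W m n ω : ℝ)) 2 μ := by
    refine hSL.of_le (castm.comp hTm).aestronglyMeasurable (Filter.Eventually.of_forall fun ω => ?_)
    rw [Real.norm_eq_abs, Real.norm_eq_abs, abs_of_nonneg (by positivity),
      abs_of_nonneg (by positivity)]
    exact hT1 ω
  have hTiL : MemLp (fun ω => (Tr (ind W) m n ω : ℝ)) 2 μ := by
    refine hTL.of_le (castm.comp hTim).aestronglyMeasurable (Filter.Eventually.of_forall fun ω => ?_)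
    rw [Real.norm_eq_abs, Real.norm_eq_abs, abs_of_nonneg (by positivity),
      abs_of_nonneg (by positivity)]
    exact hT2 ω
  refine ⟨hTL, hTiL, ?_⟩
  -- the excess
  set Y : ℕ × ℕ → Ω → ℝ := fun v ω => ((W v.1 v.2 ω - 1 : ℕ) : ℝ) with hY
  have hYm : ∀ v, Measurable (Y v) := fun v =>
    (measurable_from_top (f := fun k : ℕ => ((k - 1 : ℕ) : ℝ))).comp (hmeas v.1 v.2)
  have hYL : ∀ v, MemLp (Y v) 2 μ := fun v =>
    (memLp_two_iff_integrable_sq (hYm v).aestronglyMeasurable).2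
      (geo_sub hq.le hq1 (hmeas v.1 v.2) (hlaw v)).1
  have hYI : iIndepFun Y μ :=
    hW.indep.comp (fun _ (k : ℕ) => ((k - 1 : ℕ) : ℝ)) (fun _ => measurable_from_top)
  have hYsum : MemLp (fun ω => ∑ v ∈ range m ×ˢ range n, Y v ω) 2 μ :=
    memLp_finsetSum _ fun v _ => hYL v
  have hle : ∀ ω, ((Tr W m n ω : ℝ) - Tr (ind W) m n ω) ^ 2 ≤
      (∑ v ∈ range m ×ˢ range n, Y v ω) ^ 2 := by
    intro ω
    have h0 := hT2 ω
    have h1 : Tr W m n ω ≤ Tr (ind W) m n ω + ∑ v ∈ range m ×ˢ range n, (W v.1 v.2 ω - 1) :=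
      T_le_ind (fun i j => W i j ω) m n
    have h2 : (Tr W m n ω : ℝ) ≤ Tr (ind W) m n ω + ∑ v ∈ range m ×ˢ range n, Y v ω := by
      have : ((Tr W m n ω : ℕ) : ℝ) ≤
        ((Tr (ind W) m n ω + ∑ v ∈ range m ×ˢ range n, (W v.1 v.2 ω - 1) : ℕ) : ℝ) := by
        exact_mod_cast h1
      rw [Nat.cast_add, Nat.cast_sum] at this
      exact this
    exact pow_le_pow_left₀ (by linarith) (by linarith) 2
  have hint1 : Integrable (fun ω => ((Tr W m n ω : ℝ) - Tr (ind W) m n ω) ^ 2) μ :=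
    (hTL.sub hTiL).integrable_sq
  have hstep : ∫ ω, ((Tr W m n ω : ℝ) - Tr (ind W) m n ω) ^ 2 ∂μ ≤
      ∫ ω, (∑ v ∈ range m ×ˢ range n, Y v ω) ^ 2 ∂μ :=
    integral_mono hint1 hYsum.integrable_sq hle
  refine hstep.trans ?_
  -- the second moment
  have hvar : variance (fun ω => ∑ v ∈ range m ×ˢ range n, Y v ω) μ =
      ∑ v ∈ range m ×ˢ range n, variance (Y v) μ := by
    have h := IndepFun.variance_sum (X := Y) (s := range m ×ˢ range n) (μ := μ)
      (fun v _ => hYL v) (fun u _ v _ huv => hYI.indepFun huv)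
    rw [← h]
    congr 1
    funext ω
    simp
  have hEy : ∀ v, ∫ ω, Y v ω ∂μ = q * mean q := fun v =>
    (geo_sub hq.le hq1 (hmeas v.1 v.2) (hlaw v)).2.1
  have hEy2 : ∀ v, ∫ ω, (Y v ω) ^ 2 ∂μ = q * (vari q + mean q ^ 2) := fun v =>
    (geo_sub hq.le hq1 (hmeas v.1 v.2) (hlaw v)).2.2
  have hYI1 : ∀ v, Integrable (Y v) μ := fun v => (hYL v).integrable (by norm_num)
  have hE : ∫ ω, ∑ v ∈ range m ×ˢ range n, Y v ω ∂μ = m * n * (q * mean q) := by
    rw [integral_finsetSum _ fun v _ => hYI1 v]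
    simp only [hEy]
    rw [Finset.sum_const, Finset.card_product, card_range, card_range, nsmul_eq_mul]
    push_cast
    ring
  have hq2 : 0 ≤ q * mean q := by
    unfold mean
    have : 0 < 1 - q := by linarith
    positivity
  have b1 : q * mean q ≤ 2 * q ^ 2 := by
    have h1 : mean q ≤ 2 * q := by
      unfold mean
      rw [div_le_iff₀ (by linarith)]
      nlinarith
    nlinarith
  have b2 : q * (vari q + mean q ^ 2) ≤ 2 * q ^ 2 := by
    have h1 : vari q + mean q ^ 2 ≤ 2 * q := by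
      unfold vari mean
      have hpos : 0 < (1 - q) ^ 2 := by
        have : 0 < 1 - q := by linarith
        positivity
      rw [div_pow, ← add_div, div_le_iff₀ hpos]
      nlinarith
    nlinarith
  have hv : ∀ v, variance (Y v) μ ≤ 2 * q ^ 2 := by
    intro v
    have h := variance_eq_sub (hYL v)
    rw [h]
    have h2 : ∫ ω, (Y v ^ 2) ω ∂μ = q * (vari q + mean q ^ 2) := hEy2 v
    rw [h2]
    have : 0 ≤ (∫ ω, Y v ω ∂μ) ^ 2 := sq_nonneg _
    linarith
  have hsecond : ∫ ω, (∑ v ∈ range m ×ˢ range n, Y v ω) ^ 2 ∂μ =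
      variance (fun ω => ∑ v ∈ range m ×ˢ range n, Y v ω) μ +
      (∫ ω, ∑ v ∈ range m ×ˢ range n, Y v ω ∂μ) ^ 2 := by
    have h := variance_eq_sub hYsum
    have h2 : ∫ ω, ((fun ω => ∑ v ∈ range m ×ˢ range n, Y v ω) ^ 2) ω ∂μ =
      ∫ ω, (∑ v ∈ range m ×ˢ range n, Y v ω) ^ 2 ∂μ := rfl
    rw [h2] at h
    linarith
  rw [hsecond, hvar, hE]
  have b3 : ∑ v ∈ range m ×ˢ range n, variance (Y v) μ ≤ m * n * (2 * q ^ 2) := by
    refine (Finset.sum_le_sum fun v _ => hv v).trans ?_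
    rw [Finset.sum_const, Finset.card_product, card_range, card_range, nsmul_eq_mul]
    push_cast
    exact le_rfl
  have b4 : ((m : ℝ) * n * (q * mean q)) ^ 2 ≤ (m * n * (2 * q ^ 2)) ^ 2 := by
    refine pow_le_pow_left₀ (by positivity) ?_ 2
    exact mul_le_mul_of_nonneg_left b1 (by positivity)
  have b5 : 0 ≤ (m : ℝ) * n * q ^ 2 := by positivity
  nlinarith

end Pool.Agent.Q25.PN
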