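import Pool.Agent.Q295.PN.StmK
import Pool.Agent.Q25.PN.Ea
import Pool.Agent.Q25.PN.K11

/-!
# Job BE of project PN
-/

set_option autoImplicit false

namespace Pool.Agent.Q25.PN

open Finset MeasureTheory ProbabilityTheory
open Pool.Agent.Q295.PN Pool.Agent.W533.LP

section

variable {Ω : Type} [MeasurableSpace Ω]

theorem ind_meas {μ : Measure Ω} {q : ℝ} {W : ℕ → ℕ → Ω → ℕ} (hW : Bulk μ q W) (x y : ℕ) :
    Measurable (ind W x y) := by
  have : ind W x y = (fun k : ℕ => if 1 ≤ k then 1 else 0) ∘ W x y := rfl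
  rw [this]
  exact (measurable_from_top (f := fun k : ℕ => if 1 ≤ k then 1 else 0)).comp (hW.meas (x, y))

theorem ind_le_one (W : ℕ → ℕ → Ω → ℕ) (x y : ℕ) (ω : Ω) : ind W x y ω ≤ 1 := by
  show (if 1 ≤ W x y ω then 1 else 0) ≤ 1
  split_ifs <;> omega

theorem ind_memLp {μ : Measure Ω} {q : ℝ} {W : ℕ → ℕ → Ω → ℕ} (hW : Bulk μ q W) (x y : ℕ) :
    MemLp (fun ω => (ind W x y ω : ℝ)) 2 μ := by
  have := hW.prob
  refine MemLp.of_bound ((measurable_from_top (f := fun k : ℕ => (k : ℝ))).comp
    (ind_meas hW x y)).aestronglyMeasurable 1 (Filter.Eventually.of_forall fun ω => ?_)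
  rw [Real.norm_eq_abs, abs_of_nonneg (by positivity)]
  exact_mod_cast ind_le_one W x y ω

theorem ind_int {μ : Measure Ω} {q : ℝ} {W : ℕ → ℕ → Ω → ℕ} (hW : Bulk μ q W) (x y : ℕ) :
    ∫ ω, (ind W x y ω : ℝ) ∂μ = q := by
  have := hW.prob
  have hm : MeasurableSet {ω | W x y ω = 0} :=
    (hW.meas (x, y)) (measurableSet_singleton 0)
  have h1 : ∀ ω, (ind W x y ω : ℝ) = 1 - {ω | W x y ω = 0}.indicator (fun _ => (1 : ℝ)) ω := by
    intro ω
    show (((if 1 ≤ W x y ω then 1 else 0 : ℕ)) : ℝ) = _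
    by_cases h : W x y ω = 0
    · have hmem : ω ∈ {ω | W x y ω = 0} := h
      rw [if_neg (by omega), Set.indicator_of_mem hmem]
      norm_num
    · have hmem : ω ∉ {ω | W x y ω = 0} := h
      rw [if_pos (by omega), Set.indicator_of_notMem hmem]
      norm_num
  simp only [h1]
  rw [integral_sub (integrable_const _) ((integrable_const (1 : ℝ)).indicator hm),
    integral_indicator hm]
  have h2 : μ.real {ω | W x y ω = 0} = (1 - q) * q ^ 0 := hW.law (x, y) 0
  simp only [integral_const, smul_eq_mul, mul_one, MeasurableSet.univ, measureReal_restrict_apply,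
    Set.univ_inter]
  rw [h2]
  simp

theorem ind_var {μ : Measure Ω} {q : ℝ} {W : ℕ → ℕ → Ω → ℕ} (hW : Bulk μ q W) (x y : ℕ) :
    variance (fun ω => (ind W x y ω : ℝ)) μ = q * (1 - q) := by
  have := hW.prob
  rw [variance_eq_sub (ind_memLp hW x y)]
  have h1 : ∫ ω, ((fun ω => (ind W x y ω : ℝ)) ^ 2) ω ∂μ = q := by
    have h2 : ((fun ω => (ind W x y ω : ℝ)) ^ 2) = fun ω => (ind W x y ω : ℝ) := by
      funext ω
      show (ind W x y ω : ℝ) ^ 2 = _
      have h3 := ind_le_one W x y ω
      interval_cases ind W x y ω <;> norm_num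
    rw [h2]
    exact ind_int hW x y
  rw [h1, ind_int hW x y]
  ring

theorem ind_indep {μ : Measure Ω} {q : ℝ} {W : ℕ → ℕ → Ω → ℕ} (hW : Bulk μ q W)
    (v w : ℕ × ℕ) (hvw : v ≠ w) :
    cov[fun ω => (ind W v.1 v.2 ω : ℝ), fun ω => (ind W w.1 w.2 ω : ℝ); μ] = 0 := by
  have := hW.prob
  have h3 := hW.indep.indepFun hvw
  have h4 := h3.comp (φ := fun k : ℕ => (((if 1 ≤ k then 1 else 0 : ℕ)) : ℝ))
    (ψ := fun k : ℕ => (((if 1 ≤ k then 1 else 0 : ℕ)) : ℝ))
    (measurable_of_countable _) (measurable_of_countable _)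
  exact IndepFun.covariance_eq_zero h4 (ind_memLp hW v.1 v.2) (ind_memLp hW w.1 w.2)

/-- Bessel's inequality. -/
theorem bessel {μ : Measure Ω} {q : ℝ} {W : ℕ → ℕ → Ω → ℕ} (hq : 0 < q) (hq1 : q < 1)
    (hW : Bulk μ q W) (F : Finset (ℕ × ℕ)) (Z : Ω → ℝ) (hZ : MemLp Z 2 μ) :
    ∑ v ∈ F, (cov[Z, fun ω => (ind W v.1 v.2 ω : ℝ); μ]) ^ 2 ≤ q * (1 - q) * variance Z μ := by
  have := hW.prob
  obtain ⟨K, hK⟩ : ∃ K : ℝ, K = q * (1 - q) := ⟨_, rfl⟩
  have hK1 : 0 < K := by
    rw [hK]
    have : 0 < 1 - q := by linarith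
    positivity
  rw [← hK]
  obtain ⟨c, hc⟩ : ∃ c : ℕ × ℕ → ℝ, c = fun v => cov[Z, fun ω => (ind W v.1 v.2 ω : ℝ); μ] :=
    ⟨_, rfl⟩
  have hc' : ∀ v, cov[Z, fun ω => (ind W v.1 v.2 ω : ℝ); μ] = c v := fun v => by rw [hc]
  simp only [hc']
  obtain ⟨A, hA⟩ : ∃ A : ℝ, A = ∑ v ∈ F, c v ^ 2 := ⟨_, rfl⟩
  rw [← hA]
  have hmem : ∀ v, MemLp (fun ω => c v * (ind W v.1 v.2 ω : ℝ)) 2 μ := fun v =>
    (ind_memLp hW v.1 v.2).const_mul (c v)
  have hS : MemLp (fun ω => ∑ v ∈ F, c v * (ind W v.1 v.2 ω : ℝ)) 2 μ :=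
    memLp_finsetSum _ fun v _ => hmem v
  have h1 : cov[Z, fun ω => ∑ v ∈ F, c v * (ind W v.1 v.2 ω : ℝ); μ] = A := by
    rw [covariance_fun_sum_right' (fun v _ => hmem v) hZ, hA]
    refine sum_congr rfl fun v _ => ?_
    rw [covariance_const_mul_right, hc' v]
    ring
  have h2 : variance (fun ω => ∑ v ∈ F, c v * (ind W v.1 v.2 ω : ℝ)) μ ≤ K * A := by
    rw [variance_fun_sum' (fun v _ => hmem v), hA, Finset.mul_sum]
    refine sum_le_sum fun v hv => ?_
    rw [Finset.sum_eq_single v]
    · rw [covariance_self (hmem v).aestronglyMeasurable.aemeasurable, variance_const_mul,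
        ind_var hW, ← hK]
      exact le_of_eq (mul_comm _ _)
    · intro w _ hw
      rw [covariance_const_mul_left, covariance_const_mul_right, ind_indep hW v w (Ne.symm hw)]
      ring
    · intro h
      exact absurd hv h
  have hV0 := variance_nonneg Z μ
  have h3 := variance_nonneg (fun ω => K * Z ω - ∑ v ∈ F, c v * (ind W v.1 v.2 ω : ℝ)) μ
  rw [variance_fun_sub (hZ.const_mul K) hS, variance_const_mul, covariance_const_mul_left, h1]
    at h3
  have h4 : 2 * K * A ≤ K ^ 2 * variance Z μ + K * A := by nlinarith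
  have h5 : K * A ≤ K * (K * variance Z μ) := by nlinarith
  exact le_of_mul_le_mul_left h5 hK1

theorem Tind_memLp {μ : Measure Ω} {q : ℝ} {W : ℕ → ℕ → Ω → ℕ} (hW : Bulk μ q W) (m n : ℕ) :
    MemLp (fun ω => (Tr (ind W) m n ω : ℝ)) 2 μ := by
  have := hW.prob
  have hTim : Measurable (Tr (ind W) m n) :=
    Pool.Agent.Q295.PN.lMeas.2.1 zr zr (ind W) (fun _ => measurable_const)
      (fun _ => measurable_const) (fun i j => ind_meas hW i j) m n
  refine MemLp.of_bound ((measurable_from_top (f := fun k : ℕ => (k : ℝ))).comp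
    hTim).aestronglyMeasurable (m * n) (Filter.Eventually.of_forall fun ω => ?_)
  rw [Real.norm_eq_abs, abs_of_nonneg (by positivity)]
  have h1 : Tr (ind W) m n ω ≤ ∑ v ∈ range m ×ˢ range n, ind W v.1 v.2 ω :=
    T_le_sum (fun i j => ind W i j ω) m n
  have h2 : ∑ v ∈ range m ×ˢ range n, ind W v.1 v.2 ω ≤ ∑ v ∈ range m ×ˢ range n, 1 :=
    Finset.sum_le_sum fun v _ => ind_le_one W v.1 v.2 ω
  have h3 : ∑ v ∈ range m ×ˢ range n, 1 = m * n := by
    rw [← Finset.card_eq_sum_ones, Finset.card_product, card_range, card_range]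
  exact_mod_cast (h1.trans h2).trans h3.le

end

section

variable {ι : Type} [Fintype ι] [DecidableEq ι]

theorem Ex_add (p : ℝ) (f g : (ι → Bool) → ℝ) :
    Ex p (fun κ => f κ + g κ) = Ex p f + Ex p g := by
  unfold Ex
  rw [← Finset.sum_add_distrib]
  exact Finset.sum_congr rfl fun κ _ => by ring

theorem Ex_sub (p : ℝ) (f g : (ι → Bool) → ℝ) :
    Ex p (fun κ => f κ - g κ) = Ex p f - Ex p g := by
  unfold Ex
  rw [← Finset.sum_sub_distrib]
  exact Finset.sum_congr rfl fun κ _ => by ring

theorem Ex_one (p : ℝ) : Ex p (fun _ : ι → Bool => (1 : ℝ)) = 1 := by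
  unfold Ex wt
  simp only [mul_one]
  have h := Finset.prod_univ_sum (fun _ : ι => (univ : Finset Bool))
    (fun _ b => if b = true then p else 1 - p)
  rw [Fintype.piFinset_univ] at h
  rw [← h]
  simp

theorem Ex_upd (p : ℝ) (w : ι) (f : (ι → Bool) → ℝ) :
    Ex p (fun κ => f κ * (if κ w = true then 1 else 0)) =
      p * Ex p (fun κ => f (Function.update κ w true)) ∧
    Ex p f = p * Ex p (fun κ => f (Function.update κ w true)) +
      (1 - p) * Ex p (fun κ => f (Function.update κ w false)) := by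
  have hinv : ∀ b : Bool, ∀ κ : ι → Bool, ∀ b' : Bool,
      f (Function.update (Function.update κ w b') w b) = f (Function.update κ w b) := by
    intro b κ b'
    rw [Function.update_idem]
  have h1 : Ex p (fun κ => f κ * (if κ w = true then 1 else 0)) =
      p * Ex p (fun κ => f (Function.update κ w true)) := by
    rw [← Ex_ind p w (fun κ => f (Function.update κ w true)) (hinv true)]
    unfold Ex
    refine Finset.sum_congr rfl fun κ _ => ?_
    congr 1
    beta_reduce
    by_cases h : κ w = true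
    · have h3 : Function.update κ w true = κ := by
        rw [← h]
        exact Function.update_eq_self w κ
      rw [if_pos h, if_pos h, mul_one, h3]
    · rw [if_neg h, if_neg h, mul_zero]
  refine ⟨h1, ?_⟩
  have h2 : Ex p f = Ex p (fun κ => f κ * (if κ w = true then 1 else 0)) +
      (Ex p (fun κ => f (Function.update κ w false)) -
        Ex p (fun κ => if κ w = true then f (Function.update κ w false) else 0)) := by
    rw [← Ex_sub, ← Ex_add]
    unfold Ex
    refine Finset.sum_congr rfl fun κ _ => ?_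
    congr 1
    beta_reduce
    by_cases h : κ w = true
    · rw [if_pos h, if_pos h]
      ring
    · rw [if_neg h, if_neg h]
      have h3 : κ w = false := by
        cases h4 : κ w
        · rfl
        · exact absurd h4 h
      have h5 : Function.update κ w false = κ := by
        rw [← h3]
        exact Function.update_eq_self w κ
      rw [h5]
      ring
  rw [h2, h1, Ex_ind p w (fun κ => f (Function.update κ w false)) (hinv false)]
  ring

end

theorem be : S_BE := by
  classical
  intro hMC hDE hKP hTL _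
  refine ⟨?_, ?_⟩
  · intro Ω _ μ q W n X hq hq1 hW hX
    have h := bessel hq hq1 hW (range n ×ˢ range n) X hX
    rw [Finset.sum_product] at h
    exact h
  · intro Ω _ μ q W N i j x y hq hq1 hW
    have hprob := hW.prob
    have hW' : Bulk μ q (shr i j W) := ((Pool.Agent.Q295.PN.lOps μ q).2.2 W hW).1 i j
    split_ifs with h
    · obtain ⟨hi, ha, hj, hb⟩ := h
      obtain ⟨a, rfl⟩ := Nat.exists_eq_add_of_le hi
      obtain ⟨b, rfl⟩ := Nat.exists_eq_add_of_le hj
      have ha' : a < N := by omega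
      have hb' : b < N := by omega
      set v : Fin N × Fin N := (⟨a, ha'⟩, ⟨b, hb'⟩) with hv
      have hv' : ((⟨i + a - i, ha⟩, ⟨j + b - j, hb⟩) : Fin N × Fin N) = v := by
        rw [hv]
        refine Prod.ext (Fin.ext ?_) (Fin.ext ?_)
        · show i + a - i = a
          omega
        · show j + b - j = b
          omega
      rw [hv']
      have hind : ∀ ω, ind W (i + a) (j + b) ω = ind (shr i j W) a b ω := by
        intro ω
        show (if 1 ≤ W (i + a) (j + b) ω then 1 else 0) = if 1 ≤ W (a + i) (b + j) ω then 1 else 0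
        rw [add_comm i a, add_comm j b]
      have hf : ∀ ω, (Tr (ind (shr i j W)) N N ω : ℝ) =
          (Lc (fun v : Fin N × Fin N => decide (1 ≤ shr i j W v.1 v.2 ω)) : ℝ) := by
        intro ω
        have h1 := hTL N N (fun s t => shr i j W s t ω)
        have h2 : Tr (ind (shr i j W)) N N ω =
          Lc (fun v : Fin N × Fin N => decide (1 ≤ shr i j W v.1 v.2 ω)) := h1
        rw [h2]
      have hg : ∀ ω, (ind (shr i j W) a b ω : ℝ) =
          (if decide (1 ≤ shr i j W (v.1 : ℕ) (v.2 : ℕ) ω) = true then (1 : ℝ) else 0) := by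
        intro ω
        show (((if 1 ≤ shr i j W a b ω then 1 else 0 : ℕ)) : ℝ) = _
        by_cases h1 : 1 ≤ shr i j W a b ω
        · rw [if_pos h1, if_pos (decide_eq_true h1)]
          norm_num
        · rw [if_neg h1, if_neg (fun h2 => h1 (of_decide_eq_true h2))]
          norm_num
      simp only [hind]
      rw [covariance_eq_sub (Tind_memLp hW' N N) (ind_memLp hW' a b), ind_int hW' a b]
      have e1 : ∫ ω, (Tr (ind (shr i j W)) N N ω : ℝ) ∂μ =
          Ex q (fun κ : Fin N × Fin N → Bool => (Lc κ : ℝ)) := by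
        simp only [hf]
        exact hKP μ q (shr i j W) N N (fun κ => (Lc κ : ℝ)) hq hq1 hW'
      have e2 : ∫ ω, ((fun ω => (Tr (ind (shr i j W)) N N ω : ℝ)) *
          fun ω => (ind (shr i j W) a b ω : ℝ)) ω ∂μ =
          Ex q (fun κ : Fin N × Fin N → Bool =>
            (Lc κ : ℝ) * (if κ v = true then (1 : ℝ) else 0)) := by
        have h1 := hKP μ q (shr i j W) N N
          (fun κ => (Lc κ : ℝ) * (if κ v = true then (1 : ℝ) else 0)) hq hq1 hW'
        rw [← h1]
        refine integral_congr_ae (Filter.Eventually.of_forall fun ω => ?_)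
        show (Tr (ind (shr i j W)) N N ω : ℝ) * (ind (shr i j W) a b ω : ℝ) = _
        rw [hf, hg]
      rw [e1, e2]
      obtain ⟨u1, u2⟩ := Ex_upd q v (fun κ : Fin N × Fin N → Bool => (Lc κ : ℝ))
      rw [u1, u2]
      have e3 : rr q 0 v = Ex q (fun κ : Fin N × Fin N → Bool =>
            (Lc (Function.update κ v true) : ℝ)) -
          Ex q (fun κ : Fin N × Fin N → Bool => (Lc (Function.update κ v false) : ℝ)) := by
        rw [← Ex_sub]
        unfold rr Pr Ex
        refine Finset.sum_congr rfl fun κ _ => ?_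
        congr 1
        have h3 := ((hDE hMC (Fin N × Fin N)) v κ).2.2.1
        unfold DD at h3
        beta_reduce at h3 ⊢
        rw [h3]
        by_cases h4 : De v κ = 0 <;> simp [h4]
      rw [e3]
      ring
    · -- outside the box
      obtain ⟨S, hS⟩ : ∃ S : Finset (ℕ × ℕ),
          S = ((range (i + N)) ×ˢ (range (j + N))).erase (x, y) := ⟨_, rfl⟩
      have hdis : Disjoint S {(x, y)} := by
        rw [hS, Finset.disjoint_singleton_right]
        exact Finset.notMem_erase _ _
      have h1 := hW.indep.indepFun_finset S {(x, y)} hdis hW.meas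
      have h2 := h1.comp (φ := fun z : S → ℕ =>
          (T (fun s t => if h : (s + i, t + j) ∈ S then
            (if 1 ≤ z ⟨(s + i, t + j), h⟩ then 1 else 0) else 0) N N : ℝ))
        (ψ := fun z : ({(x, y)} : Finset (ℕ × ℕ)) → ℕ =>
          (((if 1 ≤ z ⟨(x, y), Finset.mem_singleton_self _⟩ then 1 else 0 : ℕ)) : ℝ))
        (measurable_of_countable _) (measurable_of_countable _)
      have h3 : (fun ω => (Tr (ind (shr i j W)) N N ω : ℝ)) =
          (fun z : S → ℕ =>
            (T (fun s t => if h : (s + i, t + j) ∈ S then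
              (if 1 ≤ z ⟨(s + i, t + j), h⟩ then 1 else 0) else 0) N N : ℝ)) ∘
          (fun ω (i : S) => W i.1.1 i.1.2 ω) := by
        funext ω
        simp only [Function.comp]
        congr 1
        unfold Tr
        apply Pool.Agent.W370.LP.T_congr
        intro s hs t ht
        show (if 1 ≤ W (s + i) (t + j) ω then 1 else 0) = _
        have hmem : (s + i, t + j) ∈ S := by
          rw [hS, Finset.mem_erase, Finset.mem_product, Finset.mem_range, Finset.mem_range]
          refine ⟨?_, by omega, by omega⟩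
          intro h4
          rw [Prod.mk.injEq] at h4
          exact h (by omega)
        rw [dif_pos hmem]
      rw [← h3] at h2
      exact h2.covariance_eq_zero (Tind_memLp hW' N N) (ind_memLp hW x y)

end Pool.Agent.Q25.PN
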