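import Pool.Agent.Q295.PN.StmK

/-!
# Job TL of project PN
-/

set_option autoImplicit false

namespace Pool.Agent.Q25.PN

open Finset Pool.Agent.Q295.PN Pool.Agent.W533.LP Pool.Agent.W370.LP

theorem mc_ge {ι : Type} [Fintype ι] [DecidableEq ι] [PartialOrder ι] (A C : Finset ι)
    (h1 : C ⊆ A) (h2 : IsChain (· ≤ ·) (C : Set ι)) : C.card ≤ mc A := by
  classical
  unfold mc
  apply Finset.le_sup (f := Finset.card)
  rw [Finset.mem_filter, Finset.mem_powerset]
  exact ⟨h1, h2⟩

theorem mc_le {ι : Type} [Fintype ι] [DecidableEq ι] [PartialOrder ι] (A : Finset ι) (k : ℕ)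
    (h : ∀ C : Finset ι, C ⊆ A → IsChain (· ≤ ·) (C : Set ι) → C.card ≤ k) : mc A ≤ k := by
  classical
  unfold mc
  apply Finset.sup_le
  intro C hC
  rw [Finset.mem_filter, Finset.mem_powerset] at hC
  exact h C hC.1 hC.2

/-- Coordinates. -/
def emb (m n : ℕ) : Fin m × Fin n ↪ ℕ × ℕ := ⟨fun v => ((v.1 : ℕ), (v.2 : ℕ)), by
  intro u v h
  have h1 := congrArg Prod.fst h
  have h2 := congrArg Prod.snd h
  exact Prod.ext (Fin.ext h1) (Fin.ext h2)⟩

theorem tl : S_TL := by
  classical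
  intro m n w
  set w' : ℕ → ℕ → ℕ := fun i j => if 1 ≤ w i j then 1 else 0 with hw'
  set κ : Fin m × Fin n → Bool := fun v => decide (1 ≤ w v.1 v.2) with hκ
  have hop : ∀ v, v ∈ op κ ↔ 1 ≤ w v.1 v.2 := by
    intro v
    unfold op
    rw [Finset.mem_filter]
    constructor
    · intro h
      exact of_decide_eq_true h.2
    · intro h
      exact ⟨Finset.mem_univ _, decide_eq_true h⟩
  show T w' m n = mc (op κ)
  apply le_antisymm
  · obtain ⟨S, h1, h2, h3⟩ := chain_att w' m n
    set C : Finset (Fin m × Fin n) :=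
      univ.filter (fun v => emb m n v ∈ S ∧ 1 ≤ w v.1 v.2) with hC
    have hCA : C ⊆ op κ := by
      intro v hv
      rw [hC, Finset.mem_filter] at hv
      exact (hop v).2 hv.2.2
    have hCc : IsChain (· ≤ ·) (C : Set (Fin m × Fin n)) := by
      intro u hu v hv huv
      rw [Finset.mem_coe, hC, Finset.mem_filter] at hu hv
      have hne : emb m n u ≠ emb m n v := fun h => huv ((emb m n).injective h)
      rcases h2 (Finset.mem_coe.2 hu.2.1) (Finset.mem_coe.2 hv.2.1) hne with h | h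
      · exact Or.inl ⟨h.1, h.2⟩
      · exact Or.inr ⟨h.1, h.2⟩
    have hcard : C.card = T w' m n := by
      rw [← h3, ← Finset.card_map (emb m n)]
      have e1 : ∑ v ∈ S, w' v.1 v.2 = (S.filter (fun v => 1 ≤ w v.1 v.2)).card := by
        rw [Finset.card_filter]
      rw [e1]
      congr 1
      ext v
      rw [Finset.mem_map, Finset.mem_filter]
      constructor
      · rintro ⟨u, hu, rfl⟩
        rw [hC, Finset.mem_filter] at hu
        exact ⟨hu.2.1, hu.2.2⟩
      · rintro ⟨hv, hv1⟩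
        have := h1 v hv
        refine ⟨(⟨v.1, this.1⟩, ⟨v.2, this.2⟩), ?_, rfl⟩
        rw [hC, Finset.mem_filter]
        exact ⟨Finset.mem_univ _, hv, hv1⟩
    rw [← hcard]
    exact mc_ge _ _ hCA hCc
  · apply mc_le
    intro C hC hc
    have h := chain_le w' m n (C.map (emb m n)) (by
      intro v hv
      rw [Finset.mem_map] at hv
      obtain ⟨u, _, rfl⟩ := hv
      exact ⟨u.1.2, u.2.2⟩) (by
      intro u hu v hv huv
      rw [Finset.mem_coe, Finset.mem_map] at hu hv
      obtain ⟨a, ha, rfl⟩ := hu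
      obtain ⟨b, hb, rfl⟩ := hv
      have hab : a ≠ b := fun h => huv (by rw [h])
      rcases hc (Finset.mem_coe.2 ha) (Finset.mem_coe.2 hb) hab with h | h
      · exact Or.inl ⟨h.1, h.2⟩
      · exact Or.inr ⟨h.1, h.2⟩)
    rw [Finset.sum_map] at h
    refine le_trans (le_of_eq ?_) h
    rw [Finset.card_eq_sum_ones]
    refine Finset.sum_congr rfl fun v hv => ?_
    have hv1 := (hop v).1 (hC hv)
    show 1 = w' (v.1 : ℕ) (v.2 : ℕ)
    rw [hw']
    show 1 = if 1 ≤ w (v.1 : ℕ) (v.2 : ℕ) then 1 else 0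
    rw [if_pos hv1]

end Pool.Agent.Q25.PN
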